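import Mathlib
import Pool.Agent.H19Bent.Basic

set_option autoImplicit false

/-!
# Arrays of Maiorana-McFarland functions and a lower bound for bent iterative functions
-/

namespace Pool.Agent.H78.BentArr

open Pool.Agent.H19Bent

/-! ### Counting: Cauchy-Schwarz -/

theorem card_sq_le {α β : Type} [Fintype α] [Fintype β] [DecidableEq β] (φ : α → β) :
    Fintype.card α ^ 2 ≤ Fintype.card β * Fintype.card {p : α × α // φ p.1 = φ p.2} := by
  classical
  have h1 : Fintype.card α = ∑ b : β, (Finset.univ.filter (fun a => φ a = b)).card := by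
    rw [← Finset.card_univ]
    exact Finset.card_eq_sum_card_fiberwise (fun a _ => Finset.mem_coe.2 (Finset.mem_univ _))
  have h2 : Fintype.card {p : α × α // φ p.1 = φ p.2} =
      ∑ b : β, (Finset.univ.filter (fun a => φ a = b)).card ^ 2 := by
    rw [Fintype.card_subtype]
    have h3 := Finset.card_eq_sum_card_fiberwise
      (s := Finset.univ.filter (fun p : α × α => φ p.1 = φ p.2)) (t := (Finset.univ : Finset β))
      (f := fun p => φ p.1) (fun a _ => Finset.mem_coe.2 (Finset.mem_univ _))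
    rw [h3]
    refine Finset.sum_congr rfl fun b _ => ?_
    rw [sq, ← Finset.card_product]
    congr 1
    ext p
    simp only [Finset.mem_filter, Finset.mem_univ, true_and, Finset.mem_product]
    constructor
    · rintro ⟨h4, h5⟩
      exact ⟨h5, h4 ▸ h5⟩
    · rintro ⟨h4, h5⟩
      exact ⟨h4.trans h5.symm, h4⟩
  rw [h2]
  have h4 : Fintype.card α ^ 2 = (∑ b : β, (Finset.univ.filter (fun a => φ a = b)).card) ^ 2 := by
    rw [← h1]
  rw [h4]
  have := sq_sum_le_card_mul_sum_sq (s := (Finset.univ : Finset β))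
    (f := fun b => (Finset.univ.filter (fun a => φ a = b)).card)
  rw [Finset.card_univ] at this
  exact this

/-- The additive energy bound in the form used here: quadruples with sum `c`. -/
theorem energy {X Q : Type} [Fintype X] [Fintype Q] [AddCommGroup Q] [DecidableEq Q]
    (hQ : ∀ q : Q, q + q = 0) (e : X → Q) (c : Q) (ι : X → X) (hι : Function.Injective ι)
    (he : ∀ x, e (ι x) = e x + c) :
    Fintype.card X ^ 4 ≤ Fintype.card Q *
      Nat.card {p : ZMod 2 → ZMod 2 → X // e (p 0 0) + e (p 0 1) + e (p 1 0) + e (p 1 1) = c} := by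
  classical
  have h1 := card_sq_le (fun p : X × X => e p.1 + e p.2)
  rw [Fintype.card_prod, ← sq, ← pow_mul] at h1
  refine h1.trans (Nat.mul_le_mul_left _ ?_)
  rw [← Nat.card_eq_fintype_card]
  have h01 : (1 : ZMod 2) ≠ 0 := by decide
  let F : {p : (X × X) × (X × X) // e p.1.1 + e p.1.2 = e p.2.1 + e p.2.2} →
      {p : ZMod 2 → ZMod 2 → X // e (p 0 0) + e (p 0 1) + e (p 1 0) + e (p 1 1) = c} :=
    fun p => ⟨fun a b => if a = 0 then (if b = 0 then p.1.1.1 else p.1.1.2)
      else (if b = 0 then p.1.2.1 else ι p.1.2.2), by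
        simp only [if_true, if_neg h01, he]
        have h2 := p.2
        have h3 := hQ (e p.1.2.1 + e p.1.2.2)
        rw [h2]
        calc e p.1.2.1 + e p.1.2.2 + e p.1.2.1 + (e p.1.2.2 + c)
            = (e p.1.2.1 + e p.1.2.2) + (e p.1.2.1 + e p.1.2.2) + c := by abel
          _ = c := by rw [h3, zero_add]⟩
  have hF : Function.Injective F := by
    intro p q hpq
    have h2 := congrArg Subtype.val hpq
    have h3 := congrFun (congrFun h2 0) 0
    have h4 := congrFun (congrFun h2 0) 1
    have h5 := congrFun (congrFun h2 1) 0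
    have h6 := congrFun (congrFun h2 1) 1
    simp only [F, if_true, if_neg h01] at h3 h4 h5 h6
    have h7 := hι h6
    apply Subtype.ext
    exact Prod.ext (Prod.ext h3 h4) (Prod.ext h5 h7)
  exact Nat.card_le_card_of_injective F hF

/-! ### Characters -/

theorem sgn_zero : sgn 0 = 1 := by decide

theorem sgn_one : sgn 1 = -1 := by decide

theorem char_sum {m : ℕ} (w : Fin m → ZMod 2) :
    ∑ u : Fin m → ZMod 2, sgn (∑ i, u i * w i) = if w = 0 then 2 ^ m else 0 := by
  split_ifs with h
  · subst h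
    simp [sgn_zero, ZMod.card]
  · have : ∃ i, w i ≠ 0 := by
      by_contra h2
      push Not at h2
      exact h (funext h2)
    obtain ⟨i, hi⟩ := this
    have hi1 : w i = 1 := by
      revert hi
      generalize w i = a
      revert a
      decide
    set S := ∑ u : Fin m → ZMod 2, sgn (∑ i, u i * w i) with hS
    have h3 : S = ∑ u : Fin m → ZMod 2, sgn (∑ j, (u + Pi.single i 1 : Fin m → ZMod 2) j * w j) :=
      (Fintype.sum_equiv (Equiv.addRight (Pi.single i (1 : ZMod 2)))
        (fun u => sgn (∑ j, (u + Pi.single i 1 : Fin m → ZMod 2) j * w j)) (fun u => sgn (∑ j, u j * w j))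
        (fun u => rfl)).symm
    have h4 : ∀ u : Fin m → ZMod 2,
        sgn (∑ j, (u + Pi.single i 1 : Fin m → ZMod 2) j * w j) = - sgn (∑ j, u j * w j) := by
      intro u
      have : ∑ j, (u + Pi.single i 1 : Fin m → ZMod 2) j * w j = ∑ j, u j * w j + 1 := by
        simp only [Pi.add_apply, add_mul, Finset.sum_add_distrib]
        congr 1
        rw [Finset.sum_eq_single i]
        · simp [hi1]
        · intro j _ hj
          simp [hj]
        · simp
      rw [this, sgn_add, sgn_one]
      ring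
    rw [Finset.sum_congr rfl (fun u _ => h4 u), Finset.sum_neg_distrib, ← hS] at h3
    omega

/-! ### The dual of a bent function -/

theorem walsh_inv {n : ℕ} (f : BoolFun n) (x : Fin n → ZMod 2) :
    ∑ y : Fin n → ZMod 2, walsh f y * sgn (∑ i, y i * x i) = 2 ^ n * sgn (f x) := by
  unfold walsh
  simp only [Finset.sum_mul]
  rw [Finset.sum_comm]
  have h1 : ∀ z : Fin n → ZMod 2,
      ∑ y : Fin n → ZMod 2, sgn (f z + ∑ i, z i * y i) * sgn (∑ i, y i * x i) =
        sgn (f z) * (if z + x = 0 then 2 ^ n else 0) := by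
    intro z
    rw [← char_sum (z + x), Finset.mul_sum]
    refine Finset.sum_congr rfl fun y _ => ?_
    rw [← sgn_add, ← sgn_add]
    congr 1
    rw [add_assoc, ← Finset.sum_add_distrib]
    congr 1
    refine Finset.sum_congr rfl fun i _ => ?_
    simp only [Pi.add_apply]
    ring
  rw [Finset.sum_congr rfl (fun z _ => h1 z), Finset.sum_eq_single x]
  · have : x + x = 0 := by
      funext i
      have : ∀ a : ZMod 2, a + a = 0 := by decide
      exact this (x i)
    rw [if_pos this]
    ring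
  · intro z _ hz
    rw [if_neg, mul_zero]
    intro h2
    apply hz
    funext i
    have h3 := congrFun h2 i
    simp only [Pi.add_apply, Pi.zero_apply] at h3
    revert h3
    generalize z i = a
    generalize x i = b
    revert a b
    decide
  · intro h
    exact absurd (Finset.mem_univ _) h

theorem walsh_dual {n : ℕ} (hn : Even n) {f : BoolFun n} (hf : IsBent f) (x : Fin n → ZMod 2) :
    walsh (dual f) x = 2 ^ (n / 2) * sgn (f x) := by
  have h1 := walsh_inv f x
  have h2 : ∑ y : Fin n → ZMod 2, walsh f y * sgn (∑ i, y i * x i) =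
      2 ^ (n / 2) * walsh (dual f) x := by
    unfold walsh
    rw [Finset.mul_sum]
    refine Finset.sum_congr rfl fun y _ => ?_
    have := walsh_eq_dual hf y
    unfold walsh at this
    rw [this, sgn_add]
    ring
  rw [h2] at h1
  have h3 : (2 : ℤ) ^ n = 2 ^ (n / 2) * 2 ^ (n / 2) := by
    rw [← pow_add]
    congr 1
    obtain ⟨k, hk⟩ := hn
    omega
  rw [h3, mul_assoc] at h1
  exact mul_left_cancel₀ (by positivity) h1

theorem isBent_dual {n : ℕ} (hn : Even n) {f : BoolFun n} (hf : IsBent f) : IsBent (dual f) := by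
  intro x
  rw [walsh_dual hn hf, abs_mul, sgn_abs, mul_one, abs_of_nonneg (by positivity)]

theorem dual_of_walsh {n : ℕ} {f g : BoolFun n}
    (h : ∀ y, walsh f y = 2 ^ (n / 2) * sgn (g y)) : dual f = g := by
  funext y
  unfold dual
  rw [h y]
  have hp : (0 : ℤ) < 2 ^ (n / 2) := by positivity
  have h0 : ∀ a : ZMod 2, a = 0 ∨ a = 1 := by decide
  rcases h0 (g y) with h1 | h1
  · rw [h1, sgn_zero, mul_one, if_pos hp]
  · rw [h1, sgn_one, if_neg (by linarith)]

theorem isBent_of_walsh {n : ℕ} {f g : BoolFun n}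
    (h : ∀ y, walsh f y = 2 ^ (n / 2) * sgn (g y)) : IsBent f := by
  intro x
  rw [h x, abs_mul, sgn_abs, mul_one, abs_of_nonneg (by positivity)]

theorem dual_dual {n : ℕ} (hn : Even n) {f : BoolFun n} (hf : IsBent f) : dual (dual f) = f :=
  dual_of_walsh (walsh_dual hn hf)

/-! ### Maiorana-McFarland functions in `m + m` variables -/

/-- first half of the coordinates -/
def fst {m : ℕ} (x : Fin (m + m) → ZMod 2) : Fin m → ZMod 2 := fun i => x (Fin.castAdd m i)

/-- second half of the coordinates -/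
def snd {m : ℕ} (x : Fin (m + m) → ZMod 2) : Fin m → ZMod 2 := fun i => x (Fin.natAdd m i)

/-- codes of the functions `u · φ(v) + h(v)` -/
abbrev Code (m : ℕ) : Type := ((Fin m → ZMod 2) → (Fin m → ZMod 2)) × ((Fin m → ZMod 2) → ZMod 2)

/-- codes of the Maiorana-McFarland functions: permutations and functions -/
abbrev MM (m : ℕ) : Type := Equiv.Perm (Fin m → ZMod 2) × ((Fin m → ZMod 2) → ZMod 2)

/-- the function `u · φ(v) + h(v)` -/
def fn {m : ℕ} (c : Code m) : BoolFun (m + m) := fun x => ∑ i, fst x i * c.1 (snd x) i + c.2 (snd x)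

/-- the function `v · φ(u) + h(u)` -/
def fn' {m : ℕ} (c : Code m) : BoolFun (m + m) := fun x => ∑ i, snd x i * c.1 (fst x) i + c.2 (fst x)

/-- the code of a Maiorana-McFarland function -/
def cd {m : ℕ} (p : MM m) : Code m := (fun v => p.1 v, p.2)

/-- the code of the dual of a Maiorana-McFarland function -/
def cd' {m : ℕ} (p : MM m) : Code m := (fun a => p.1.symm a, fun a => p.2 (p.1.symm a))

theorem fst_append {m : ℕ} (u v : Fin m → ZMod 2) : fst (Fin.append u v) = u := by
  funext i; exact Fin.append_left u v i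

theorem snd_append {m : ℕ} (u v : Fin m → ZMod 2) : snd (Fin.append u v) = v := by
  funext i; exact Fin.append_right u v i

theorem append_fst_snd {m : ℕ} (x : Fin (m + m) → ZMod 2) : Fin.append (fst x) (snd x) = x := by
  funext i
  refine Fin.addCases (fun j => ?_) (fun j => ?_) i
  · exact Fin.append_left _ _ j
  · exact Fin.append_right _ _ j

theorem sum_append {m : ℕ} (F : (Fin (m + m) → ZMod 2) → ℤ) :
    ∑ x, F x = ∑ v : Fin m → ZMod 2, ∑ u : Fin m → ZMod 2, F (Fin.append u v) := by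
  rw [Finset.sum_comm, ← Fintype.sum_prod_type']
  refine (Fintype.sum_equiv ⟨fun p => Fin.append p.1 p.2, fun x => (fst x, snd x), fun p => ?_,
    fun x => append_fst_snd x⟩ (fun p : (Fin m → ZMod 2) × (Fin m → ZMod 2) =>
      F (Fin.append p.1 p.2)) F (fun p => rfl)).symm
  exact Prod.ext (fst_append _ _) (snd_append _ _)

theorem walsh_fn {m : ℕ} (p : MM m) (y : Fin (m + m) → ZMod 2) :
    walsh (fn (cd p)) y = 2 ^ ((m + m) / 2) * sgn (fn' (cd' p) y) := by
  have hm : (m + m) / 2 = m := by omega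
  rw [hm]
  unfold walsh
  rw [sum_append]
  have h1 : ∀ v : Fin m → ZMod 2,
      ∑ u : Fin m → ZMod 2, sgn (fn (cd p) (Fin.append u v) + ∑ i, (Fin.append u v) i * y i) =
        sgn (p.2 v + ∑ i, v i * snd y i) * (if p.1 v + fst y = 0 then 2 ^ m else 0) := by
    intro v
    rw [← char_sum (p.1 v + fst y), Finset.mul_sum]
    refine Finset.sum_congr rfl fun u _ => ?_
    rw [← sgn_add]
    congr 1
    unfold fn cd
    rw [Fin.sum_univ_add]
    simp only [fst_append, snd_append, Fin.append_left, Fin.append_right, Pi.add_apply, mul_add,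
      Finset.sum_add_distrib]
    simp only [fst, snd]
    ring
  rw [Finset.sum_congr rfl (fun v _ => h1 v), Finset.sum_eq_single (p.1.symm (fst y))]
  · have : p.1 (p.1.symm (fst y)) + fst y = 0 := by
      rw [Equiv.apply_symm_apply]
      funext i
      have : ∀ a : ZMod 2, a + a = 0 := by decide
      exact this _
    rw [if_pos this, mul_comm]
    congr 2
    unfold fn' cd'
    simp only
    rw [add_comm]
    congr 1
    refine Finset.sum_congr rfl fun i _ => ?_
    ring
  · intro v _ hv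
    rw [if_neg, mul_zero]
    intro h2
    apply hv
    rw [Equiv.eq_symm_apply]
    funext i
    have h3 := congrFun h2 i
    simp only [Pi.add_apply, Pi.zero_apply] at h3
    revert h3
    generalize p.1 v i = a
    generalize fst y i = b
    revert a b
    decide
  · intro h
    exact absurd (Finset.mem_univ _) h

theorem isBent_fn {m : ℕ} (p : MM m) : IsBent (fn (cd p)) := isBent_of_walsh (walsh_fn p)

theorem dual_fn {m : ℕ} (p : MM m) : dual (fn (cd p)) = fn' (cd' p) := dual_of_walsh (walsh_fn p)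

theorem fn_add {m : ℕ} (c d : Code m) (x : Fin (m + m) → ZMod 2) :
    fn (c + d) x = fn c x + fn d x := by
  simp only [fn, Prod.fst_add, Prod.snd_add, Pi.add_apply, mul_add, Finset.sum_add_distrib]
  ring

theorem fn'_add {m : ℕ} (c d : Code m) (x : Fin (m + m) → ZMod 2) :
    fn' (c + d) x = fn' c x + fn' d x := by
  simp only [fn', Prod.fst_add, Prod.snd_add, Pi.add_apply, mul_add, Finset.sum_add_distrib]
  ring

/-- the code of the constant function `1` -/
def one (m : ℕ) : Code m := (0, 1)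

theorem fn_one {m : ℕ} (x : Fin (m + m) → ZMod 2) : fn (one m) x = 1 := by
  simp [fn, one]

theorem fn'_one {m : ℕ} (x : Fin (m + m) → ZMod 2) : fn' (one m) x = 1 := by
  simp [fn', one]

theorem fn_injective {m : ℕ} : Function.Injective (fn (m := m)) := by
  intro c d h
  have h2 : c.2 = d.2 := by
    funext v
    have := congrFun h (Fin.append 0 v)
    simpa [fn, fst_append, snd_append] using this
  have h1 : c.1 = d.1 := by
    funext v j
    have := congrFun h (Fin.append (Pi.single j 1) v)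
    simp only [fn, fst_append, snd_append, h2] at this
    have h3 := add_right_cancel this
    simpa [Pi.single_apply] using h3
  exact Prod.ext h1 h2

theorem cd_injective {m : ℕ} : Function.Injective (cd (m := m)) := by
  intro p q h
  have h1 := congrArg Prod.fst h
  have h2 := congrArg Prod.snd h
  exact Prod.ext (Equiv.ext fun v => congrFun h1 v) h2

/-- adding the constant `1` -/
def ad {m : ℕ} (p : MM m) : MM m := (p.1, p.2 + 1)

theorem cd_ad {m : ℕ} (p : MM m) : cd (ad p) = cd p + one m := by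
  refine Prod.ext ?_ rfl
  show (fun v => p.1 v) = (fun v => p.1 v) + 0
  rw [add_zero]

theorem cd'_ad {m : ℕ} (p : MM m) : cd' (ad p) = cd' p + one m := by
  refine Prod.ext ?_ rfl
  show (fun v => p.1.symm v) = (fun v => p.1.symm v) + 0
  rw [add_zero]

theorem ad_injective {m : ℕ} : Function.Injective (ad (m := m)) := by
  intro p q h
  have h1 := congrArg Prod.fst h
  have h2 := congrArg Prod.snd h
  exact Prod.ext h1 (add_right_cancel h2)

theorem code_two {m : ℕ} (c : Code m) : c + c = 0 := by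
  have h : ∀ a : ZMod 2, a + a = 0 := by decide
  refine Prod.ext ?_ ?_
  · funext v i; exact h _
  · funext v; exact h _

/-! ### The two levels of arrays -/

/-- four Maiorana-McFarland functions whose duals have sum `1` -/
abbrev L1 (m : ℕ) : Type := {p : ZMod 2 → ZMod 2 → MM m //
  cd' (p 0 0) + cd' (p 0 1) + cd' (p 1 0) + cd' (p 1 1) = one m}

/-- the four codes -/
def cd4 {m : ℕ} (p : L1 m) : ZMod 2 → ZMod 2 → Code m := fun a b => cd (p.1 a b)

/-- the codes of the constant `1` in four variables -/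
def one4 (m : ℕ) : ZMod 2 → ZMod 2 → Code m := fun _ _ => one m

/-- sixteen Maiorana-McFarland functions -/
abbrev L2 (m : ℕ) : Type := {p : ZMod 2 → ZMod 2 → L1 m //
  cd4 (p 0 0) + cd4 (p 0 1) + cd4 (p 1 0) + cd4 (p 1 1) = one4 m}

/-- the bent iterative function given by an element of `L1` -/
def g1 {m : ℕ} (p : L1 m) : BoolFun (m + m + 2) := glue fun a b => fn (cd4 p a b)

theorem g1_mem {m : ℕ} (p : L1 m) : g1 p ∈ bentIter (m + m) := by
  constructor
  · intro a b
    rw [g1, restr_glue]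
    exact isBent_fn _
  · intro y
    simp only [g1, restr_glue, cd4, dual_fn]
    rw [← fn'_add, ← fn'_add, ← fn'_add, p.2, fn'_one]

theorem g1_bent {m : ℕ} (p : L1 m) : IsBent (g1 p) := bentIter_subset (g1_mem p)

/-- the bent iterative function given by an element of `L2` -/
noncomputable def g2 {m : ℕ} (p : L2 m) : BoolFun (m + m + 2 + 2) :=
  glue fun a b => dual (g1 (p.1 a b))

theorem even_m {m : ℕ} : Even (m + m + 2) := ⟨m + 1, by ring⟩

theorem g2_mem {m : ℕ} (p : L2 m) : g2 p ∈ bentIter (m + m + 2) := by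
  constructor
  · intro a b
    rw [g2, restr_glue]
    exact isBent_dual even_m (g1_bent _)
  · intro y
    simp only [g2, restr_glue, dual_dual even_m (g1_bent _)]
    have h := congrFun (congrFun p.2 (y 0)) (y 1)
    simp only [Pi.add_apply] at h
    simp only [g1, glue]
    rw [← fn_add, ← fn_add, ← fn_add, h, one4, fn_one]

theorem g2_injective {m : ℕ} : Function.Injective (g2 (m := m)) := by
  intro p q h
  apply Subtype.ext
  funext a b
  have h1 := congrArg (fun g => restr g a b) h
  simp only [g2, restr_glue] at h1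
  have h2 := congrArg dual h1
  rw [dual_dual even_m (g1_bent _), dual_dual even_m (g1_bent _)] at h2
  apply Subtype.ext
  funext c d
  have h3 := congrArg (fun g => restr g c d) h2
  simp only [g1, restr_glue, cd4] at h3
  exact cd_injective (fn_injective h3)

theorem card_L1 (m : ℕ) : Fintype.card (MM m) ^ 4 ≤ Fintype.card (Code m) * Nat.card (L1 m) :=
  energy code_two cd' (one m) ad ad_injective cd'_ad

/-- adding `1` to the four functions -/
def ad4 {m : ℕ} (p : L1 m) : L1 m := ⟨fun a b => ad (p.1 a b), by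
  simp only [cd'_ad]
  have h := p.2
  have h2 := code_two (one m)
  calc cd' (p.1 0 0) + one m + (cd' (p.1 0 1) + one m) + (cd' (p.1 1 0) + one m) +
        (cd' (p.1 1 1) + one m)
      = cd' (p.1 0 0) + cd' (p.1 0 1) + cd' (p.1 1 0) + cd' (p.1 1 1) +
        (one m + one m) + (one m + one m) := by abel
    _ = one m := by rw [h, h2, add_zero, add_zero]⟩

theorem ad4_injective {m : ℕ} : Function.Injective (ad4 (m := m)) := by
  intro p q h
  have h1 := congrArg Subtype.val h
  apply Subtype.ext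
  funext a b
  exact ad_injective (congrFun (congrFun h1 a) b)

theorem cd4_ad4 {m : ℕ} (p : L1 m) : cd4 (ad4 p) = cd4 p + one4 m := by
  funext a b
  exact cd_ad _

theorem card_L2 (m : ℕ) : Nat.card (L1 m) ^ 4 ≤ Fintype.card (Code m) ^ 4 * Nat.card (L2 m) := by
  classical
  haveI : Fintype (L1 m) := Fintype.ofFinite _
  have h := energy (X := L1 m) (Q := ZMod 2 → ZMod 2 → Code m)
    (fun q => by funext a b; exact code_two _) cd4 (one4 m) ad4 ad4_injective cd4_ad4
  rw [Nat.card_eq_fintype_card (α := L1 m)]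
  refine h.trans (le_of_eq ?_)
  congr 1
  rw [Fintype.card_fun, Fintype.card_fun]
  have : Fintype.card (ZMod 2) = 2 := ZMod.card 2
  rw [this]
  ring

theorem card_MM_le (m : ℕ) : Fintype.card (MM m) ^ 16 ≤
    Fintype.card (Code m) ^ 8 * Nat.card (bentIter (m + m + 2)) := by
  have h1 := card_L1 m
  have h2 := card_L2 m
  have h3 : Nat.card (L2 m) ≤ Nat.card (bentIter (m + m + 2)) :=
    Nat.card_le_card_of_injective (fun p => (⟨g2 p, g2_mem p⟩ : bentIter (m + m + 2)))
      (fun p q h => g2_injective (congrArg Subtype.val h))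
  calc Fintype.card (MM m) ^ 16 = (Fintype.card (MM m) ^ 4) ^ 4 := by rw [← pow_mul]
    _ ≤ (Fintype.card (Code m) * Nat.card (L1 m)) ^ 4 := Nat.pow_le_pow_left h1 4
    _ = Fintype.card (Code m) ^ 4 * Nat.card (L1 m) ^ 4 := mul_pow _ _ _
    _ ≤ Fintype.card (Code m) ^ 4 * (Fintype.card (Code m) ^ 4 * Nat.card (L2 m)) :=
        Nat.mul_le_mul_left _ h2
    _ ≤ Fintype.card (Code m) ^ 4 * (Fintype.card (Code m) ^ 4 *
          Nat.card (bentIter (m + m + 2))) :=
        Nat.mul_le_mul_left _ (Nat.mul_le_mul_left _ h3)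
    _ = _ := by ring

theorem card_V (m : ℕ) : Fintype.card (Fin m → ZMod 2) = 2 ^ m := by
  rw [Fintype.card_fun, ZMod.card, Fintype.card_fin]

theorem card_code (m : ℕ) : Fintype.card (Code m) = 2 ^ (m * 2 ^ m) * 2 ^ 2 ^ m := by
  rw [Fintype.card_prod, Fintype.card_fun (α := Fin m → ZMod 2) (β := Fin m → ZMod 2),
    Fintype.card_fun (α := Fin m → ZMod 2) (β := ZMod 2), card_V, ZMod.card, ← pow_mul]

theorem card_MM (m : ℕ) : Fintype.card (MM m) = (2 ^ m).factorial * 2 ^ 2 ^ m := by
  rw [Fintype.card_prod, Fintype.card_perm, Fintype.card_fun (α := Fin m → ZMod 2) (β := ZMod 2),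
    card_V, ZMod.card]

/-- `n ^ (2n) ≤ 8 ^ n (n!) ^ 2` -/
theorem pow_le_factorial (n : ℕ) : n ^ (2 * n) ≤ 8 ^ n * n.factorial ^ 2 := by
  have h1 := Real.pow_div_factorial_le_exp (n : ℝ) (by positivity) n
  rw [div_le_iff₀ (by positivity)] at h1
  have h2 : Real.exp (n : ℝ) ^ 2 ≤ 8 ^ n := by
    have h3 : Real.exp 1 ^ 2 ≤ 8 := by
      have := Real.exp_one_lt_d9
      have h4 := Real.exp_pos 1
      nlinarith
    calc Real.exp (n : ℝ) ^ 2 = (Real.exp 1 ^ 2) ^ n := by
          rw [← Real.exp_nat_mul, ← Real.exp_nat_mul, ← Real.exp_nat_mul]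
          congr 1
          push_cast
          ring
      _ ≤ 8 ^ n := pow_le_pow_left₀ (by positivity) h3 n
  have h5 : ((n : ℝ) ^ n) ^ 2 ≤ (Real.exp (n : ℝ) * n.factorial) ^ 2 :=
    pow_le_pow_left₀ (by positivity) h1 2
  have h6 : (n : ℝ) ^ (2 * n) ≤ 8 ^ n * (n.factorial : ℝ) ^ 2 := by
    calc (n : ℝ) ^ (2 * n) = ((n : ℝ) ^ n) ^ 2 := by rw [← pow_mul]; congr 1; ring
      _ ≤ (Real.exp (n : ℝ) * n.factorial) ^ 2 := h5
      _ = Real.exp (n : ℝ) ^ 2 * (n.factorial : ℝ) ^ 2 := mul_pow _ _ _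
      _ ≤ 8 ^ n * (n.factorial : ℝ) ^ 2 := mul_le_mul_of_nonneg_right h2 (by positivity)
  exact_mod_cast h6

theorem arith (x y F B : ℕ) (hx : 0 < x) (hy : 0 < y) (h1 : (F * x) ^ 16 ≤ (y * x) ^ 8 * B)
    (h2 : y ^ 2 ≤ x ^ 3 * F ^ 2) : y ^ 8 ≤ x ^ 16 * B := by
  have h3 : F ^ 16 * x ^ 8 ≤ y ^ 8 * B := by
    have : F ^ 16 * x ^ 8 * x ^ 8 ≤ y ^ 8 * B * x ^ 8 := by
      calc F ^ 16 * x ^ 8 * x ^ 8 = (F * x) ^ 16 := by ring
        _ ≤ (y * x) ^ 8 * B := h1
        _ = y ^ 8 * B * x ^ 8 := by ring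
    exact Nat.le_of_mul_le_mul_right this (by positivity)
  have h4 : (y ^ 2) ^ 8 ≤ (x ^ 3 * F ^ 2) ^ 8 := Nat.pow_le_pow_left h2 8
  have h5 : y ^ 8 * y ^ 8 ≤ x ^ 16 * B * y ^ 8 := by
    calc y ^ 8 * y ^ 8 = (y ^ 2) ^ 8 := by ring
      _ ≤ (x ^ 3 * F ^ 2) ^ 8 := h4
      _ = x ^ 16 * (F ^ 16 * x ^ 8) := by ring
      _ ≤ x ^ 16 * (y ^ 8 * B) := Nat.mul_le_mul_left _ h3
      _ = x ^ 16 * B * y ^ 8 := by ring
  exact Nat.le_of_mul_le_mul_right h5 (by positivity)

/-- The lower bound, in a form without subtraction. -/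
theorem main_bound (m : ℕ) :
    (2 ^ (m * 2 ^ m)) ^ 8 ≤ (2 ^ 2 ^ m) ^ 16 * Nat.card (bentIter (m + m + 2)) := by
  have h1 := card_MM_le m
  rw [card_code, card_MM] at h1
  have h2 := pow_le_factorial (2 ^ m)
  have h3 : (2 ^ m) ^ (2 * 2 ^ m) = (2 ^ (m * 2 ^ m)) ^ 2 := by
    rw [← pow_mul, ← pow_mul]; congr 1; ring
  have h4 : (8 : ℕ) ^ 2 ^ m = (2 ^ 2 ^ m) ^ 3 := by
    rw [show (8 : ℕ) = 2 ^ 3 by norm_num, ← pow_mul, ← pow_mul]; congr 1; ring
  rw [h3, h4] at h2
  have hx : 0 < 2 ^ 2 ^ m := by positivity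
  have hy : 0 < 2 ^ (m * 2 ^ m) := by positivity
  generalize 2 ^ 2 ^ m = x at *
  generalize 2 ^ (m * 2 ^ m) = y at *
  exact arith x y _ _ hx hy h1 h2

/-- `|BI_N| ≥ 2 ^ ((N - 8) 2 ^ (N / 2))` for even `N ≥ 8`. -/
theorem final (N : ℕ) (hN : 8 ≤ N) (he : Even N) :
    2 ^ ((N - 8) * 2 ^ (N / 2)) ≤ Nat.card (bentIter (N - 2)) := by
  obtain ⟨k, hk⟩ := he
  obtain ⟨m, rfl⟩ : ∃ m, k = m + 4 := ⟨k - 4, by omega⟩
  have e1 : N - 2 = (m + 2) + (m + 2) + 2 := by omega
  have e2 : N - 8 = 2 * m := by omega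
  have e3 : N / 2 = m + 4 := by omega
  rw [e1, e2, e3]
  have h := main_bound (m + 2)
  have h1 : (2 ^ ((m + 2) * 2 ^ (m + 2))) ^ 8 =
      (2 ^ 2 ^ (m + 2)) ^ 16 * 2 ^ (2 * m * 2 ^ (m + 4)) := by
    rw [← pow_mul, ← pow_mul, ← pow_add]
    congr 1
    ring
  rw [h1] at h
  exact Nat.le_of_mul_le_mul_left h (by positivity)

end Pool.Agent.H78.BentArr
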