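import Mathlib
import Pool.Agent.H78.BentArr

set_option autoImplicit false
set_option linter.unusedSectionVars false

/-!
# The share of bent iterative functions, part A: second derivatives of the dual, shears
-/

namespace Pool.Agent.H78.Share

open Pool.Agent.H19Bent Pool.Agent.H78.BentArr

/-- The point `(b₁, b₂, y)`. -/
def pnt {m : ℕ} (b₁ b₂ : ZMod 2) (y : Fin m → ZMod 2) : Fin (m + 2) → ZMod 2 :=
  Fin.cons b₁ (Fin.cons b₂ y : Fin (m + 1) → ZMod 2)

theorem pnt_surj {m : ℕ} (z : Fin (m + 2) → ZMod 2) : ∃ b₁ b₂ y, z = pnt b₁ b₂ y := cons_cons_surj z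

theorem pnt_add {m : ℕ} (a b a' b' : ZMod 2) (y y' : Fin m → ZMod 2) :
    pnt a b y + pnt a' b' y' = pnt (a + a') (b + b') (y + y') := by
  funext i
  refine Fin.cases ?_ (fun j => ?_) i
  · simp [pnt]
  · refine Fin.cases ?_ (fun k => ?_) j
    · simp [pnt]
    · simp [pnt]

theorem pnt_inj {m : ℕ} {a b a' b' : ZMod 2} {y y' : Fin m → ZMod 2} (h : pnt a b y = pnt a' b' y') :
    a = a' ∧ b = b' ∧ y = y' := by
  unfold pnt at h
  have h1 := Fin.cons_injective2 h
  have h2 := Fin.cons_injective2 h1.2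
  exact ⟨h1.1, h2.1, h2.2⟩

theorem two_self (b : ZMod 2) : b + b = 0 := by revert b; decide

theorem two_self' {m : ℕ} (y : Fin m → ZMod 2) : y + y = 0 := by
  funext i; exact two_self (y i)

/-- The sum of the four signs. -/
def sg (b₁ b₂ p q r s : ZMod 2) : ℤ :=
  sgn (0 * b₁ + 0 * b₂ + p) + sgn (0 * b₁ + 1 * b₂ + q) + sgn (1 * b₁ + 0 * b₂ + r) +
    sgn (1 * b₁ + 1 * b₂ + s)

theorem sg_four : ∀ p q r s : ZMod 2, p + q + r + s = 1 →
    (if 0 < sg 0 0 p q r s then (0 : ZMod 2) else 1) + (if 0 < sg 0 1 p q r s then 0 else 1) +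
      (if 0 < sg 1 0 p q r s then 0 else 1) + (if 0 < sg 1 1 p q r s then 0 else 1) = 1 := by
  decide

theorem dual_pnt {m : ℕ} {g : BoolFun (m + 2)} (hg : g ∈ bentIter m) (b₁ b₂ : ZMod 2)
    (y : Fin m → ZMod 2) :
    dual g (pnt b₁ b₂ y) = if 0 < sg b₁ b₂ (dual (restr g 0 0) y) (dual (restr g 0 1) y)
      (dual (restr g 1 0) y) (dual (restr g 1 1) y) then 0 else 1 := by
  obtain ⟨h1, -⟩ := hg
  have e : ∀ a₁ a₂, walsh (restr g a₁ a₂) y = 2 ^ (m / 2) * sgn (dual (restr g a₁ a₂) y) :=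
    fun a₁ a₂ => walsh_eq_dual (h1 a₁ a₂) y
  have huniv : (Finset.univ : Finset (ZMod 2)) = {0, 1} := rfl
  have key : walsh g (pnt b₁ b₂ y) = 2 ^ (m / 2) * sg b₁ b₂ (dual (restr g 0 0) y)
      (dual (restr g 0 1) y) (dual (restr g 1 0) y) (dual (restr g 1 1) y) := by
    unfold pnt
    rw [walsh_restr]
    simp only [e, huniv, Finset.sum_pair (show (0 : ZMod 2) ≠ 1 by decide)]
    unfold sg
    simp only [sgn_add]
    ring
  have hpos : (0 < walsh g (pnt b₁ b₂ y)) ↔ 0 < sg b₁ b₂ (dual (restr g 0 0) y)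
      (dual (restr g 0 1) y) (dual (restr g 1 0) y) (dual (restr g 1 1) y) := by
    rw [key]
    exact mul_pos_iff_of_pos_left (by positivity)
  unfold dual
  simp only [hpos]
  rfl

theorem dual_sum {m : ℕ} {g : BoolFun (m + 2)} (hg : g ∈ bentIter m) (y : Fin m → ZMod 2) :
    dual g (pnt 0 0 y) + dual g (pnt 0 1 y) + dual g (pnt 1 0 y) + dual g (pnt 1 1 y) = 1 := by
  rw [dual_pnt hg, dual_pnt hg, dual_pnt hg, dual_pnt hg]
  exact sg_four _ _ _ _ (hg.2 y)

/-- The second derivative in the directions `a`, `b` is the constant `1`. -/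
def DD {n : ℕ} (a b : Fin n → ZMod 2) (f : BoolFun n) : Prop :=
  ∀ x, f x + f (x + a) + f (x + b) + f (x + a + b) = 1

theorem DD_dual {m : ℕ} {g : BoolFun (m + 2)} (hg : g ∈ bentIter m) :
    DD (pnt 1 0 0) (pnt 0 1 0) (dual g) := by
  intro x
  obtain ⟨b₁, b₂, y, rfl⟩ := pnt_surj x
  have h := dual_sum hg y
  simp only [pnt_add, add_zero]
  have hb : ∀ b : ZMod 2, b = 0 ∨ b = 1 := by decide
  have h11 : (1 : ZMod 2) + 1 = 0 := by decide
  rcases hb b₁ with rfl | rfl <;> rcases hb b₂ with rfl | rfl <;> simp only [zero_add, h11, add_zero]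
  · linear_combination h
  · linear_combination h
  · linear_combination h
  · linear_combination h

/-- The shear `(x₁, x₂, x') ↦ (x₁, x₂, x' + x₁ u + x₂ w)`. -/
def sh {m : ℕ} (u w : Fin m → ZMod 2) (x : Fin (m + 2) → ZMod 2) : Fin (m + 2) → ZMod 2 :=
  pnt (x 0) (x 1) fun i => x i.succ.succ + x 0 * u i + x 1 * w i

/-- The transposed shear. -/
def sh' {m : ℕ} (u w : Fin m → ZMod 2) (y : Fin (m + 2) → ZMod 2) : Fin (m + 2) → ZMod 2 :=
  pnt (y 0 + ∑ i, u i * y i.succ.succ) (y 1 + ∑ i, w i * y i.succ.succ) fun i => y i.succ.succ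

theorem pnt_zero {m : ℕ} (a b : ZMod 2) (y : Fin m → ZMod 2) : pnt a b y 0 = a := rfl
theorem pnt_one {m : ℕ} (a b : ZMod 2) (y : Fin m → ZMod 2) : pnt a b y 1 = b := rfl
theorem pnt_succ {m : ℕ} (a b : ZMod 2) (y : Fin m → ZMod 2) (i : Fin m) :
    pnt a b y i.succ.succ = y i := rfl

theorem sh_pnt {m : ℕ} (u w : Fin m → ZMod 2) (a b : ZMod 2) (y : Fin m → ZMod 2) :
    sh u w (pnt a b y) = pnt a b fun i => y i + a * u i + b * w i := rfl

theorem sh_sh {m : ℕ} (u w : Fin m → ZMod 2) (x : Fin (m + 2) → ZMod 2) : sh u w (sh u w x) = x := by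
  obtain ⟨a, b, y, rfl⟩ := pnt_surj x
  rw [sh_pnt, sh_pnt]
  congr 1
  funext i
  linear_combination two_self (a * u i) + two_self (b * w i)

theorem sh_add {m : ℕ} (u w : Fin m → ZMod 2) (x y : Fin (m + 2) → ZMod 2) :
    sh u w (x + y) = sh u w x + sh u w y := by
  unfold sh
  rw [pnt_add]
  congr 1
  funext i
  simp only [Pi.add_apply]
  ring

/-- The shear as an equivalence. -/
def shE {m : ℕ} (u w : Fin m → ZMod 2) : (Fin (m + 2) → ZMod 2) ≃ (Fin (m + 2) → ZMod 2) :=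
  ⟨sh u w, sh u w, sh_sh u w, sh_sh u w⟩

theorem sh_dot {m : ℕ} (u w : Fin m → ZMod 2) (z y : Fin (m + 2) → ZMod 2) :
    ∑ i, sh u w z i * y i = ∑ i, z i * sh' u w y i := by
  rw [Fin.sum_univ_succ, Fin.sum_univ_succ, Fin.sum_univ_succ (f := fun i => z i * sh' u w y i),
    Fin.sum_univ_succ (f := fun i : Fin (m + 1) => z i.succ * sh' u w y i.succ)]
  have e1 : ∀ i : Fin m, sh u w z i.succ.succ = z i.succ.succ + z 0 * u i + z 1 * w i := fun i => rfl
  have e2 : sh u w z 0 = z 0 := rfl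
  have e3 : sh u w z (Fin.succ 0) = z 1 := rfl
  have e4 : ∀ i : Fin m, sh' u w y i.succ.succ = y i.succ.succ := fun i => rfl
  have e5 : sh' u w y 0 = y 0 + ∑ i, u i * y i.succ.succ := rfl
  have e6 : sh' u w y (Fin.succ 0) = y 1 + ∑ i, w i * y i.succ.succ := rfl
  have e7 : (Fin.succ 0 : Fin (m + 2)) = 1 := rfl
  simp only [e1, e2, e3, e4, e5, e6]
  rw [e7]
  simp only [add_mul, Finset.sum_add_distrib, mul_add, Finset.mul_sum, mul_assoc]
  ring

theorem walsh_sh {m : ℕ} (u w : Fin m → ZMod 2) (f : BoolFun (m + 2)) (y : Fin (m + 2) → ZMod 2) :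
    walsh (fun x => f (sh u w x)) y = walsh f (sh' u w y) := by
  unfold walsh
  rw [← Equiv.sum_comp (shE u w)]
  refine Finset.sum_congr rfl fun z _ => ?_
  have : (shE u w) z = sh u w z := rfl
  rw [this, sh_dot]
  show sgn (f (sh u w (sh u w z)) + _) = _
  rw [sh_sh]

theorem isBent_sh {m : ℕ} (u w : Fin m → ZMod 2) {f : BoolFun (m + 2)} (hf : IsBent f) :
    IsBent (fun x => f (sh u w x)) := by
  intro y
  rw [walsh_sh]
  exact hf _

/-- The function attached to a bent iterative function and a shear. -/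
def img {m : ℕ} (u w : Fin m → ZMod 2) (g : BoolFun (m + 2)) : BoolFun (m + 2) :=
  fun x => dual g (sh u w x)

theorem DD_img {m : ℕ} (u w : Fin m → ZMod 2) {g : BoolFun (m + 2)} (hg : g ∈ bentIter m) :
    DD (pnt 1 0 u) (pnt 0 1 w) (img u w g) := by
  intro x
  have h := DD_dual hg (sh u w x)
  have e1 : sh u w (pnt 1 0 u) = pnt 1 0 0 := by
    rw [sh_pnt]
    congr 1
    funext i
    simp only [one_mul, zero_mul, add_zero, Pi.zero_apply]
    exact two_self _
  have e2 : sh u w (pnt 0 1 w) = pnt 0 1 0 := by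
    rw [sh_pnt]
    congr 1
    funext i
    simp only [one_mul, zero_mul, add_zero, Pi.zero_apply]
    exact two_self _
  unfold img
  rw [sh_add, sh_add, sh_add, sh_add, e1, e2]
  exact h

theorem img_bent {m : ℕ} (hm : Even (m + 2)) (u w : Fin m → ZMod 2) {g : BoolFun (m + 2)}
    (hg : g ∈ bentIter m) : IsBent (img u w g) :=
  isBent_sh u w (isBent_dual hm (bentIter_subset hg))

theorem img_inj {m : ℕ} (hm : Even (m + 2)) (u w : Fin m → ZMod 2) {g g' : BoolFun (m + 2)}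
    (hg : g ∈ bentIter m) (hg' : g' ∈ bentIter m) (h : img u w g = img u w g') : g = g' := by
  have h1 : dual g = dual g' := by
    funext x
    have := congrFun h (sh u w x)
    unfold img at this
    rwa [sh_sh] at this
  rw [← dual_dual hm (bentIter_subset hg), ← dual_dual hm (bentIter_subset hg'), h1]

end Pool.Agent.H78.Share
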