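import Mathlib

set_option autoImplicit false
set_option linter.unusedSectionVars false

/-!
# The share of bent iterative functions, part B: few functions have many degenerate derivatives
-/

namespace Pool.Agent.H78.Share

open Classical

/-- The derivative of `f` in the direction `a`. -/
def dv {n : ℕ} (a : Fin n → ZMod 2) (f : (Fin n → ZMod 2) → ZMod 2) : (Fin n → ZMod 2) → ZMod 2 :=
  fun x => f x + f (x + a)

/-- The periods of a function. -/
noncomputable def per {n : ℕ} (h : (Fin n → ZMod 2) → ZMod 2) : Finset (Fin n → ZMod 2) :=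
  Finset.univ.filter fun c => ∀ x, h (x + c) = h x

/-- The directions in which the derivative of `f` has at least `2 ^ r` periods. -/
noncomputable def dirs {n : ℕ} (r : ℕ) (f : (Fin n → ZMod 2) → ZMod 2) : Finset (Fin n → ZMod 2) :=
  Finset.univ.filter fun a => 2 ^ r ≤ (per (dv a f)).card

theorem card_vec (n : ℕ) : Fintype.card (Fin n → ZMod 2) = 2 ^ n := by
  rw [Fintype.card_fun, Fintype.card_fin, ZMod.card]

/-- Many vectors contain many independent ones. -/
theorem exists_indep {n s : ℕ} (T : Finset (Fin n → ZMod 2)) (hT : 2 ^ s ≤ T.card) :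
    ∃ a : Fin s → Fin n → ZMod 2, LinearIndependent (ZMod 2) a ∧ ∀ i, a i ∈ T := by
  obtain ⟨b, hbT, hspan, hli⟩ := exists_linearIndependent (ZMod 2) (T : Set (Fin n → ZMod 2))
  have hbf : b.Finite := Set.toFinite b
  haveI : Fintype b := hbf.fintype
  have hfr : Module.finrank (ZMod 2) (Submodule.span (ZMod 2) b) = Fintype.card b := by
    rw [finrank_span_set_eq_card hli, Set.toFinset_card]
  have hcard : Nat.card (Submodule.span (ZMod 2) b) = 2 ^ Fintype.card b := by
    rw [Module.natCard_eq_pow_finrank (K := ZMod 2), hfr, Nat.card_zmod]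
  have hle : T.card ≤ Nat.card (Submodule.span (ZMod 2) b) := by
    have hsub : (T : Set (Fin n → ZMod 2)) ⊆ (Submodule.span (ZMod 2) b : Set (Fin n → ZMod 2)) := by
      rw [hspan]; exact Submodule.subset_span
    have := Set.ncard_le_ncard hsub (Set.toFinite _)
    rw [Set.ncard_coe_finset] at this
    exact this
  have hs : s ≤ Fintype.card b := by
    rw [hcard] at hle
    exact (Nat.pow_le_pow_iff_right (by norm_num)).mp (hT.trans hle)
  obtain ⟨emb⟩ : Nonempty (Fin s ↪ b) := by
    rw [Function.Embedding.nonempty_iff_card_le, Fintype.card_fin]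
    exact hs
  exact ⟨fun i => (emb i : Fin n → ZMod 2), hli.comp _ emb.injective, fun i => hbT (emb i).2⟩

/-- The functions with all periods in `L`. -/
noncomputable def inv {n : ℕ} (L : Submodule (ZMod 2) (Fin n → ZMod 2)) :
    Finset ((Fin n → ZMod 2) → ZMod 2) :=
  Finset.univ.filter fun h => ∀ c ∈ L, ∀ x, h (x + c) = h x

theorem card_inv {n r : ℕ} (hr : r ≤ n) (c : Fin r → Fin n → ZMod 2) (hc : LinearIndependent (ZMod 2) c) :
    (inv (Submodule.span (ZMod 2) (Set.range c))).card ≤ 2 ^ 2 ^ (n - r) := by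
  set L := Submodule.span (ZMod 2) (Set.range c) with hL
  have hfr : Module.finrank (ZMod 2) L = r := by
    rw [hL, finrank_span_eq_card hc, Fintype.card_fin]
  have hcard : Nat.card L = 2 ^ r := by
    rw [Module.natCard_eq_pow_finrank (K := ZMod 2), hfr, Nat.card_zmod]
  have hq : Nat.card ((Fin n → ZMod 2) ⧸ L) = 2 ^ (n - r) := by
    have h1 := Submodule.card_eq_card_quotient_mul_card L
    rw [hcard, Nat.card_eq_fintype_card, card_vec] at h1
    have h2 : 2 ^ n = 2 ^ (n - r) * 2 ^ r := by rw [← pow_add]; congr 1; omega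
    rw [h2] at h1
    rw [mul_comm (2 ^ r) (Nat.card ((Fin n → ZMod 2) ⧸ L))] at h1
    exact (Nat.eq_of_mul_eq_mul_right (Nat.two_pow_pos r) h1).symm
  -- injection into functions on the quotient
  have key : (inv L).card ≤ Nat.card (((Fin n → ZMod 2) ⧸ L) → ZMod 2) := by
    have e0 : (inv L).card = Nat.card {h // h ∈ inv L} := by
      rw [Nat.card_eq_fintype_card, Fintype.card_coe]
    rw [e0]
    refine Nat.card_le_card_of_injective
      (fun h : {h // h ∈ inv L} => fun q : (Fin n → ZMod 2) ⧸ L => h.1 (Quotient.out q)) ?_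
    intro h h' heq
    apply Subtype.ext
    funext x
    have hh := (Finset.mem_filter.mp h.2).2
    have hh' := (Finset.mem_filter.mp h'.2).2
    have hx := congrFun heq (Submodule.Quotient.mk x)
    simp only at hx
    have hmem : (Quotient.out (Submodule.Quotient.mk x : (Fin n → ZMod 2) ⧸ L)) - x ∈ L := by
      rw [← Submodule.Quotient.eq L]
      exact Quotient.out_eq _
    set y := Quotient.out (Submodule.Quotient.mk x : (Fin n → ZMod 2) ⧸ L) with hy
    have e1 := hh _ hmem x
    have e2 := hh' _ hmem x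
    rw [add_sub_cancel] at e1 e2
    rw [← e1, ← e2]
    exact hx
  refine key.trans ?_
  rw [Nat.card_fun, hq, Nat.card_zmod]

/-- A set of periods is closed: all elements of the span of periods are periods. -/
theorem period_span {n : ℕ} {h : (Fin n → ZMod 2) → ZMod 2} {S : Set (Fin n → ZMod 2)}
    (hS : ∀ c ∈ S, ∀ x, h (x + c) = h x) :
    ∀ c ∈ Submodule.span (ZMod 2) S, ∀ x, h (x + c) = h x := by
  intro c hc
  induction hc using Submodule.span_induction with
  | mem x hx => exact hS x hx
  | zero => intro x; rw [add_zero]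
  | add a b _ _ ha hb => intro x; rw [← add_assoc, hb, ha]
  | smul t a _ ha =>
    intro x
    have ht : t = 0 ∨ t = 1 := by revert t; decide
    rcases ht with rfl | rfl
    · rw [zero_smul, add_zero]
    · rw [one_smul]; exact ha x

/-- The functions for which the derivative in the direction `a i` has the periods `c i j`. -/
noncomputable def phi {n s r : ℕ} (a : Fin s → Fin n → ZMod 2) (c : Fin s → Fin r → Fin n → ZMod 2) :
    Finset ((Fin n → ZMod 2) → ZMod 2) :=
  Finset.univ.filter fun f => ∀ i j x, dv (a i) f (x + c i j) = dv (a i) f x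

theorem card_phi {n s r : ℕ} (hr : r ≤ n) (hs : s ≤ n) (a : Fin s → Fin n → ZMod 2)
    (c : Fin s → Fin r → Fin n → ZMod 2) (ha : LinearIndependent (ZMod 2) a)
    (hc : ∀ i, LinearIndependent (ZMod 2) (c i)) :
    (phi a c).card ≤ 2 ^ 2 ^ (n - s) * (2 ^ 2 ^ (n - r)) ^ s := by
  have himg : ((phi a c).image fun f => fun i => dv (a i) f).card ≤ (2 ^ 2 ^ (n - r)) ^ s := by
    have hsub : ((phi a c).image fun f => fun i => dv (a i) f) ⊆
        Fintype.piFinset fun i => inv (Submodule.span (ZMod 2) (Set.range (c i))) := by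
      intro F hF
      rw [Finset.mem_image] at hF
      obtain ⟨f, hf, rfl⟩ := hF
      rw [Fintype.mem_piFinset]
      intro i
      refine Finset.mem_filter.mpr ⟨Finset.mem_univ _, ?_⟩
      refine period_span ?_
      rintro _ ⟨j, rfl⟩ x
      exact (Finset.mem_filter.mp hf).2 i j x
    refine (Finset.card_le_card hsub).trans ?_
    rw [Fintype.card_piFinset]
    calc ∏ i, (inv (Submodule.span (ZMod 2) (Set.range (c i)))).card ≤ ∏ _i : Fin s, 2 ^ 2 ^ (n - r) :=
          Finset.prod_le_prod (fun _ _ => Nat.zero_le _) fun i _ => card_inv hr (c i) (hc i)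
      _ = (2 ^ 2 ^ (n - r)) ^ s := by rw [Finset.prod_const, Finset.card_univ, Fintype.card_fin]
  have hfib : ∀ F ∈ ((phi a c).image fun f => fun i => dv (a i) f),
      ((phi a c).filter fun f => (fun i => dv (a i) f) = F).card ≤ 2 ^ 2 ^ (n - s) := by
    intro F hF
    rw [Finset.mem_image] at hF
    obtain ⟨f₀, -, hf₀⟩ := hF
    refine le_trans ?_ (card_inv hs a ha)
    refine Finset.card_le_card_of_injOn (fun f => f + f₀) ?_ ?_
    · intro f hf
      have hfF := (Finset.mem_filter.mp hf).2
      refine Finset.mem_filter.mpr ⟨Finset.mem_univ _, ?_⟩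
      refine period_span ?_
      rintro _ ⟨i, rfl⟩ x
      have e1 : dv (a i) f x = dv (a i) f₀ x := by
        have h1 := congrFun (congrFun hfF i) x
        have h2 := congrFun (congrFun hf₀ i) x
        exact h1.trans h2.symm
      unfold dv at e1
      simp only [Pi.add_apply]
      have t : ∀ b : ZMod 2, b + b = 0 := by decide
      linear_combination e1 - t (f x) + t (f₀ (x + a i))
    · intro f _ f' _ h
      exact add_right_cancel h
  calc (phi a c).card ≤ 2 ^ 2 ^ (n - s) * ((phi a c).image fun f => fun i => dv (a i) f).card :=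
        Finset.card_le_mul_card_image _ _ hfib
    _ ≤ _ := Nat.mul_le_mul_left _ himg

/-- The functions whose derivatives have many periods in many directions. -/
noncomputable def exc (n s r : ℕ) : Finset ((Fin n → ZMod 2) → ZMod 2) :=
  Finset.univ.filter fun f => 2 ^ s ≤ (dirs r f).card

theorem card_exc {n s r : ℕ} (hr : r ≤ n) (hs : s ≤ n) :
    (exc n s r).card ≤ 2 ^ (n * s) * 2 ^ (n * r * s) * (2 ^ 2 ^ (n - s) * (2 ^ 2 ^ (n - r)) ^ s) := by
  have hsub : exc n s r ⊆ (Finset.univ : Finset ((Fin s → Fin n → ZMod 2) ×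
      (Fin s → Fin r → Fin n → ZMod 2))).biUnion fun p =>
        if LinearIndependent (ZMod 2) p.1 ∧ ∀ i, LinearIndependent (ZMod 2) (p.2 i) then phi p.1 p.2
        else ∅ := by
    intro f hf
    have hf' := (Finset.mem_filter.mp hf).2
    obtain ⟨a, ha, haT⟩ := exists_indep (dirs r f) hf'
    have hex : ∀ i, ∃ c : Fin r → Fin n → ZMod 2, LinearIndependent (ZMod 2) c ∧
        ∀ j, c j ∈ per (dv (a i) f) := fun i =>
      exists_indep _ (Finset.mem_filter.mp (haT i)).2
    choose c hc hcT using hex
    rw [Finset.mem_biUnion]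
    refine ⟨(a, c), Finset.mem_univ _, ?_⟩
    rw [if_pos ⟨ha, hc⟩]
    refine Finset.mem_filter.mpr ⟨Finset.mem_univ _, fun i j x => ?_⟩
    exact (Finset.mem_filter.mp (hcT i j)).2 x
  refine (Finset.card_le_card hsub).trans (Finset.card_biUnion_le.trans ?_)
  have hb : ∀ p ∈ (Finset.univ : Finset ((Fin s → Fin n → ZMod 2) ×
      (Fin s → Fin r → Fin n → ZMod 2))),
      (if LinearIndependent (ZMod 2) p.1 ∧ ∀ i, LinearIndependent (ZMod 2) (p.2 i) then phi p.1 p.2
        else ∅).card ≤ 2 ^ 2 ^ (n - s) * (2 ^ 2 ^ (n - r)) ^ s := by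
    intro p _
    split_ifs with h
    · exact card_phi hr hs p.1 p.2 h.1 h.2
    · rw [Finset.card_empty]; exact Nat.zero_le _
  refine (Finset.sum_le_card_nsmul _ _ _ hb).trans (le_of_eq ?_)
  rw [Finset.card_univ, Fintype.card_prod, smul_eq_mul]
  congr 1
  congr 1
  · rw [Fintype.card_fun, card_vec, Fintype.card_fin, ← pow_mul]
  · rw [Fintype.card_fun, Fintype.card_fun, card_vec, Fintype.card_fin, Fintype.card_fin, ← pow_mul,
      ← pow_mul, mul_assoc]

end Pool.Agent.H78.Share
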