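import Mathlib
import Pool.Agent.H78.ShareA
import Pool.Agent.H78.ShareB

set_option autoImplicit false
set_option linter.unusedSectionVars false

/-!
# The share of bent iterative functions, part C: double counting
-/

namespace Pool.Agent.H78.Share

open Pool.Agent.H19Bent Pool.Agent.H78.BentArr
open Classical

theorem dv_step {n : ℕ} {a b : Fin n → ZMod 2} {f : BoolFun n} (h : DD a b f) (x : Fin n → ZMod 2) :
    dv a f (x + b) = dv a f x + 1 := by
  have h1 := h x
  unfold dv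
  have e : x + b + a = x + a + b := by abel
  rw [e]
  have t : ∀ b : ZMod 2, b + b = 0 := by decide
  linear_combination h1 - t (f x) - t (f (x + a))

/-- The `w` for which the second derivative in the directions `(1,0,u)`, `(0,1,w)` is `1`. -/
noncomputable def su {m : ℕ} (u : Fin m → ZMod 2) (f : BoolFun (m + 2)) : Finset (Fin m → ZMod 2) :=
  Finset.univ.filter fun w => DD (pnt 1 0 u) (pnt 0 1 w) f

theorem card_su {m : ℕ} (u : Fin m → ZMod 2) (f : BoolFun (m + 2)) :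
    (su u f).card ≤ (per (dv (pnt 1 0 u) f)).card := by
  rcases (su u f).eq_empty_or_nonempty with h | ⟨w₀, hw₀⟩
  · rw [h, Finset.card_empty]; exact Nat.zero_le _
  · have h0 := (Finset.mem_filter.mp hw₀).2
    refine Finset.card_le_card_of_injOn (fun w => pnt 0 1 w + pnt 0 1 w₀) ?_ ?_
    · intro w hw
      have h1 := (Finset.mem_filter.mp hw).2
      refine Finset.mem_filter.mpr ⟨Finset.mem_univ _, fun x => ?_⟩
      rw [← add_assoc, dv_step h0, dv_step h1, add_assoc]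
      have : (1 : ZMod 2) + 1 = 0 := by decide
      rw [this, add_zero]
    · intro w _ w' _ h
      exact (pnt_inj (add_right_cancel h)).2.2

theorem card_su_le {m : ℕ} (u : Fin m → ZMod 2) (f : BoolFun (m + 2)) : (su u f).card ≤ 2 ^ m := by
  refine (Finset.card_le_univ _).trans (le_of_eq ?_)
  exact card_vec m

/-- The number of pairs `(u, w)`. -/
noncomputable def cnt {m : ℕ} (f : BoolFun (m + 2)) : ℕ := ∑ u : Fin m → ZMod 2, (su u f).card

theorem cnt_le {m : ℕ} (f : BoolFun (m + 2)) : cnt f ≤ 2 ^ m * 2 ^ m := by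
  unfold cnt
  refine (Finset.sum_le_card_nsmul _ _ (2 ^ m) fun u _ => card_su_le u f).trans (le_of_eq ?_)
  rw [Finset.card_univ, card_vec, smul_eq_mul]

theorem cnt_le' {m r s : ℕ} {f : BoolFun (m + 2)} (hf : f ∉ exc (m + 2) s r) :
    cnt f ≤ 2 ^ s * 2 ^ m + 2 ^ m * 2 ^ r := by
  have hd : (dirs r f).card < 2 ^ s := by
    by_contra hcon
    push Not at hcon
    exact hf (Finset.mem_filter.mpr ⟨Finset.mem_univ _, hcon⟩)
  have h1 : ∀ u : Fin m → ZMod 2,
      (su u f).card ≤ (if pnt 1 0 u ∈ dirs r f then 2 ^ m else 0) + 2 ^ r := by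
    intro u
    split_ifs with h
    · exact (card_su_le u f).trans (Nat.le_add_right _ _)
    · have h2 : (per (dv (pnt 1 0 u) f)).card < 2 ^ r := by
        by_contra hcon
        push Not at hcon
        exact h (Finset.mem_filter.mpr ⟨Finset.mem_univ _, hcon⟩)
      rw [zero_add]
      exact (card_su u f).trans h2.le
  have h2 : ((Finset.univ : Finset (Fin m → ZMod 2)).filter fun u => pnt 1 0 u ∈ dirs r f).card ≤
      (dirs r f).card := by
    refine Finset.card_le_card_of_injOn (fun u => pnt 1 0 u) ?_ ?_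
    · intro u hu
      exact (Finset.mem_filter.mp hu).2
    · intro u _ u' _ h
      exact (pnt_inj h).2.2
  calc cnt f ≤ ∑ u : Fin m → ZMod 2, ((if pnt 1 0 u ∈ dirs r f then 2 ^ m else 0) + 2 ^ r) :=
        Finset.sum_le_sum fun u _ => h1 u
    _ = ((Finset.univ : Finset (Fin m → ZMod 2)).filter fun u => pnt 1 0 u ∈ dirs r f).card * 2 ^ m +
          2 ^ m * 2 ^ r := by
        rw [Finset.sum_add_distrib, Finset.sum_const, Finset.card_univ, card_vec, smul_eq_mul,
          ← Finset.sum_filter, Finset.sum_const, smul_eq_mul]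
    _ ≤ 2 ^ s * 2 ^ m + 2 ^ m * 2 ^ r :=
        Nat.add_le_add_right (Nat.mul_le_mul_right _ (h2.trans hd.le)) _

/-- The bent functions as a finset. -/
noncomputable def bf (n : ℕ) : Finset (BoolFun n) := Finset.univ.filter fun f => IsBent f

theorem card_bf (n : ℕ) : (bf n).card = Nat.card (bent n) := by
  rw [Nat.card_eq_fintype_card, Fintype.card_subtype]
  rfl

theorem pair_ge {m : ℕ} (hm : Even (m + 2)) (u w : Fin m → ZMod 2) :
    Nat.card (bentIter m) ≤ ((bf (m + 2)).filter fun f => DD (pnt 1 0 u) (pnt 0 1 w) f).card := by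
  have e : ((bf (m + 2)).filter fun f => DD (pnt 1 0 u) (pnt 0 1 w) f).card =
      Nat.card {f // f ∈ (bf (m + 2)).filter fun f => DD (pnt 1 0 u) (pnt 0 1 w) f} := by
    rw [Nat.card_eq_fintype_card, Fintype.card_coe]
  rw [e]
  refine Nat.card_le_card_of_injective
    (fun g : bentIter m => (⟨img u w g.1, Finset.mem_filter.mpr
      ⟨Finset.mem_filter.mpr ⟨Finset.mem_univ _, img_bent hm u w g.2⟩, DD_img u w g.2⟩⟩ :
      {f // f ∈ (bf (m + 2)).filter fun f => DD (pnt 1 0 u) (pnt 0 1 w) f})) ?_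
  intro g g' h
  apply Subtype.ext
  exact img_inj hm u w g.2 g'.2 (congrArg Subtype.val h)

theorem total_ge {m : ℕ} (hm : Even (m + 2)) :
    2 ^ m * (2 ^ m * Nat.card (bentIter m)) ≤ ∑ f ∈ bf (m + 2), cnt f := by
  have h1 : ∑ f ∈ bf (m + 2), cnt f = ∑ u : Fin m → ZMod 2, ∑ w : Fin m → ZMod 2,
      ((bf (m + 2)).filter fun f => DD (pnt 1 0 u) (pnt 0 1 w) f).card := by
    unfold cnt su
    simp only [Finset.card_filter]
    rw [Finset.sum_comm]
    refine Finset.sum_congr rfl fun u _ => ?_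
    rw [Finset.sum_comm]
  rw [h1]
  calc 2 ^ m * (2 ^ m * Nat.card (bentIter m))
      = ∑ _u : Fin m → ZMod 2, ∑ _w : Fin m → ZMod 2, Nat.card (bentIter m) := by
        rw [Finset.sum_const, Finset.sum_const, Finset.card_univ, card_vec, smul_eq_mul, smul_eq_mul]
    _ ≤ _ := Finset.sum_le_sum fun u _ => Finset.sum_le_sum fun w _ => pair_ge hm u w

theorem total_le {m r s : ℕ} :
    ∑ f ∈ bf (m + 2), cnt f ≤ (bf (m + 2)).card * (2 ^ s * 2 ^ m + 2 ^ m * 2 ^ r) +
      (exc (m + 2) s r).card * (2 ^ m * 2 ^ m) := by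
  have h1 : ∀ f ∈ bf (m + 2), cnt f ≤ (2 ^ s * 2 ^ m + 2 ^ m * 2 ^ r) +
      (if f ∈ exc (m + 2) s r then 2 ^ m * 2 ^ m else 0) := by
    intro f _
    split_ifs with h
    · exact (cnt_le f).trans (Nat.le_add_left _ _)
    · rw [add_zero]; exact cnt_le' h
  refine (Finset.sum_le_sum h1).trans ?_
  rw [Finset.sum_add_distrib, Finset.sum_const, smul_eq_mul, ← Finset.sum_filter, Finset.sum_const,
    smul_eq_mul]
  refine Nat.add_le_add_left (Nat.mul_le_mul_right _ (Finset.card_le_card ?_)) _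
  intro f hf
  exact (Finset.mem_filter.mp hf).2

/-- The main inequality. -/
theorem main {m r s : ℕ} (hm : Even (m + 2)) (hr : r ≤ m + 2) (hs : s ≤ m + 2) :
    2 ^ m * Nat.card (bentIter m) ≤ Nat.card (bent (m + 2)) * (2 ^ s + 2 ^ r) +
      2 ^ m * (2 ^ ((m + 2) * s) * 2 ^ ((m + 2) * r * s) *
        (2 ^ 2 ^ (m + 2 - s) * (2 ^ 2 ^ (m + 2 - r)) ^ s)) := by
  have h1 := total_ge hm
  have h2 := total_le (m := m) (r := r) (s := s)
  rw [card_bf] at h2
  have h3 := card_exc (n := m + 2) (s := s) (r := r) hr hs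
  set E := 2 ^ ((m + 2) * s) * 2 ^ ((m + 2) * r * s) *
        (2 ^ 2 ^ (m + 2 - s) * (2 ^ 2 ^ (m + 2 - r)) ^ s) with hE
  have h4 : 2 ^ m * (2 ^ m * Nat.card (bentIter m)) ≤
      2 ^ m * (Nat.card (bent (m + 2)) * (2 ^ s + 2 ^ r) + 2 ^ m * E) := by
    calc 2 ^ m * (2 ^ m * Nat.card (bentIter m)) ≤ _ := h1.trans h2
      _ ≤ Nat.card (bent (m + 2)) * (2 ^ s * 2 ^ m + 2 ^ m * 2 ^ r) + E * (2 ^ m * 2 ^ m) :=
          Nat.add_le_add_left (Nat.mul_le_mul_right _ h3) _
      _ = _ := by ring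
  exact Nat.le_of_mul_le_mul_left h4 (Nat.two_pow_pos m)

/-- The numbers. -/
theorem arith_exp (k : ℕ) (hk : 11 ≤ k) :
    2 * k * k + 2 * k * k * k + (2 ^ k + 2 ^ k * k) + 1 ≤ (2 * k - 8) * 2 ^ k := by
  obtain ⟨j, rfl⟩ : ∃ j, k = 11 + j := ⟨k - 11, by omega⟩
  have hp : 2 * (11 + j) * (11 + j) + 2 * (11 + j) * (11 + j) * (11 + j) + 1 ≤ (2 + j) * 2 ^ (11 + j) := by
    have h2 : ∀ j : ℕ, 2 * (11 + j) * (11 + j) + 2 * (11 + j) * (11 + j) * (11 + j) + 1 ≤
        2 * 2 ^ (11 + j) := by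
      intro j
      induction j with
      | zero => norm_num
      | succ i ih =>
        have e : 2 * 2 ^ (11 + (i + 1)) = 2 * (2 * 2 ^ (11 + i)) := by
          rw [show 11 + (i + 1) = (11 + i) + 1 from rfl, pow_succ]; ring
        rw [e]
        set x := 11 + i with hx
        have hx11 : 11 ≤ x := by omega
        have e' : 11 + (i + 1) = x + 1 := by omega
        rw [e']
        have p1 : 11 * x ≤ x * x := Nat.mul_le_mul_right _ hx11
        have p2 : 11 * (x * x) ≤ x * (x * x) := Nat.mul_le_mul_right _ hx11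
        nlinarith [ih, p1, p2]
    exact (h2 j).trans (Nat.mul_le_mul_right _ (by omega))
  have e1 : 2 * (11 + j) - 8 = (2 + j) + (1 + (11 + j)) := by omega
  rw [e1, add_mul (2 + j)]
  have e2 : (1 + (11 + j)) * 2 ^ (11 + j) = 2 ^ (11 + j) + 2 ^ (11 + j) * (11 + j) := by ring
  rw [e2]
  omega

theorem final_aux (m k : ℕ) (hk : 11 ≤ k) (h : m + 2 = k + k) :
    2 ^ (k - 4) * Nat.card (bentIter m) ≤ Nat.card (bent (m + 2)) := by
  have hlow := Pool.Agent.H78.BentArr.final (m + 2) (by omega) ⟨k, h⟩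
  have e0 : m + 2 - 8 = 2 * k - 8 := by omega
  have e2 : (m + 2) / 2 = k := by omega
  rw [e0, e2] at hlow
  have hlow' : 2 ^ ((2 * k - 8) * 2 ^ k) ≤ Nat.card (bentIter m) := hlow
  have hmain := main (m := m) (r := k) (s := k) ⟨k, h⟩ (by omega) (by omega)
  have e5 : m + 2 - k = k := by omega
  have e6 : (m + 2) * k = 2 * k * k := by rw [h]; ring
  rw [e5, e6] at hmain
  set B := Nat.card (bent (m + 2)) with hB
  set I := Nat.card (bentIter m) with hI
  set E := 2 ^ (2 * k * k) * 2 ^ (2 * k * k * k) * (2 ^ 2 ^ k * (2 ^ 2 ^ k) ^ k) with hEd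
  have hE : 2 * E ≤ I := by
    refine le_trans ?_ hlow'
    have e3 : 2 * E = 2 ^ (2 * k * k + 2 * k * k * k + (2 ^ k + 2 ^ k * k) + 1) := by
      rw [hEd, ← pow_mul, ← pow_add, ← pow_add, ← pow_add, ← pow_succ']
    rw [e3]
    exact Nat.pow_le_pow_right (by norm_num) (arith_exp k hk)
  have hm2 : 2 ^ m = 2 * 2 ^ (k + (k - 3)) := by
    rw [← pow_succ']; congr 1; omega
  have hk2 : 2 ^ k + 2 ^ k = 2 * 2 ^ k := by ring
  rw [hm2, hk2] at hmain
  have h5 : 2 ^ (k + (k - 3)) * I ≤ 2 * 2 ^ k * B := by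
    have h6 : 2 ^ (k + (k - 3)) * (2 * E) ≤ 2 ^ (k + (k - 3)) * I := Nat.mul_le_mul_left _ hE
    have h7 : 2 * 2 ^ (k + (k - 3)) * I ≤ B * (2 * 2 ^ k) + 2 * 2 ^ (k + (k - 3)) * E := hmain
    nlinarith [h6, h7]
  have h8 : 2 ^ (k + (k - 3)) = 2 * 2 ^ k * 2 ^ (k - 4) := by
    rw [← pow_succ', ← pow_add]; congr 1; omega
  rw [h8, mul_assoc] at h5
  exact Nat.le_of_mul_le_mul_left h5 (by positivity)

theorem final (n : ℕ) (hn : 22 ≤ n) (he : Even n) :
    2 ^ (n / 2 - 4) * Nat.card (bentIter (n - 2)) ≤ Nat.card (bent n) := by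
  obtain ⟨k, hk⟩ := he
  obtain ⟨m, rfl⟩ : ∃ m, n = m + 2 := ⟨n - 2, by omega⟩
  have e2 : (m + 2) / 2 = k := by omega
  rw [e2]
  exact final_aux m k (by omega) hk

end Pool.Agent.H78.Share
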